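import Pool.Agent.MWGN.StmtsB

/-!
# MWGN row CMW: kappa and I1 imply Cm^w
-/

namespace Pool.Agent.MWGN.H36

open Pool.Agent.Helper14_MV Pool.Agent.Helper2_MV
open Pool.Agent.MWK (pre Gw)
open Pool.Agent.MWF (Ap gaml dbl)
open Pool.Agent.MWGN

section
variable {β : FIC}

theorem tr {a b c : List ℕ} (h : RR β a b) (h' : RR β b c) : RR β a c := β.trans h h'

/-- an identity in a context -/
theorem ctx {u v : List ℕ} (h : RR β u v) (p q : List ℕ) : RR β (p ++ (u ++ q)) (p ++ (v ++ q)) :=
  (RR.refl p).append (h.append (RR.refl q))

theorem rr_flatMap {f g : ℕ → List ℕ} : ∀ (l : List ℕ), (∀ i ∈ l, RR β (f i) (g i)) →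
    RR β (l.flatMap f) (l.flatMap g)
  | [], _ => RR.refl _
  | a :: l, h => by
    rw [List.flatMap_cons, List.flatMap_cons]
    exact (h a (by simp)).append (rr_flatMap l (fun i hi => h i (List.mem_cons_of_mem _ hi)))

theorem dbl_cons (a : ℕ) (l : List ℕ) : dbl (a :: l) = a :: a :: dbl l := rfl

/-- a letter which occurs before may be doubled -/
theorem dup (hG : Gz β) {A : List ℕ} {x : ℕ} (hx : x ∈ A) (R : List ℕ) :
    RR β (A ++ x :: R) (A ++ x :: x :: R) := by
  obtain ⟨A₁, A₂, rfl⟩ := List.append_of_mem hx
  have h := hG.gw.gm.sub (fun i => if i = 0 then [x] else A₂)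
  have e1 : [0, 1, 0].flatMap (fun i => if i = 0 then [x] else A₂) = x :: (A₂ ++ [x]) := by simp
  have e2 : [0, 1, 0, 0].flatMap (fun i => if i = 0 then [x] else A₂) = x :: (A₂ ++ [x, x]) := by
    simp
  rw [e1, e2] at h
  have := ctx h A₁ R
  simpa only [List.append_assoc, List.cons_append, List.nil_append] using this

theorem sq_comm (hG : Gz β) (a b : ℕ) : RR β [a, a, b, b] [b, b, a, a] := by
  have h := hG.c.sub (fun i => if i = 0 then [a] else [b])
  simpa using h

/-- a square commutes with a doubled word -/
theorem sq_dbl (hG : Gz β) (a : ℕ) : ∀ u : List ℕ, RR β (a :: a :: dbl u) (dbl u ++ [a, a])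
  | [] => RR.refl _
  | b :: u => by
    have h1 := (sq_comm hG a b).append (RR.refl (dbl u))
    have h2 := (RR.refl (β := β) [b, b]).append (sq_dbl hG a u)
    rw [dbl_cons]
    exact tr h1 h2

theorem sq_four (hG : Gz β) (a : ℕ) : RR β [a, a] [a, a, a, a] := by
  have h := hG.gw.ap.sq.sub (fun _ => [a])
  have h1 : RR β [a, a] [a, a, a] := by simpa using h
  have h2 := h1.append (RR.refl (β := β) [a])
  exact tr h1 h2

/-- doubled words are idempotent -/
theorem dbl_idem (hG : Gz β) : ∀ u : List ℕ, RR β (dbl u) (dbl u ++ dbl u)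
  | [] => RR.refl _
  | a :: u => by
    have h1 := (sq_four hG a).append (dbl_idem hG u)
    have h2 := ctx (sq_dbl hG a u) [a, a] (dbl u)
    rw [dbl_cons]
    refine tr h1 ?_
    simpa only [List.append_assoc, List.cons_append, List.nil_append] using h2

/-- a letter which occurs before moves through a doubled word -/
theorem mv (hG : Gz β) {A : List ℕ} {x : ℕ} (hx : x ∈ A) (u R : List ℕ) :
    RR β (A ++ x :: (dbl u ++ R)) (A ++ (dbl u ++ x :: R)) := by
  refine tr (dup hG hx _) ?_
  have h2 := ctx (sq_dbl hG x u) A R
  refine tr (b := A ++ (dbl u ++ x :: x :: R)) ?_ ?_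
  · simpa only [List.append_assoc, List.cons_append, List.nil_append] using h2
  · have h3 := dup hG (A := A ++ dbl u) (x := x) (List.mem_append_left _ hx) R
    have := h3.symm
    simpa only [List.append_assoc, List.cons_append, List.nil_append] using this

/-! ### the normal form of the word between -/

/-- `z 0, dbl (u 0), z 1, dbl (u 1), ..` -/
def nf (z : ℕ → ℕ) (u : ℕ → List ℕ) (n : ℕ) : List ℕ :=
  (List.range n).flatMap (fun i => z i :: dbl (u i))

theorem nf_cons (z : ℕ → ℕ) (u : ℕ → List ℕ) (n : ℕ) :
    nf z u (n + 1) = z 0 :: dbl (u 0) ++ nf (fun i => z (i + 1)) (fun i => u (i + 1)) n := by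
  unfold nf
  rw [List.range_succ_eq_map, List.flatMap_cons, List.flatMap_map]

theorem nf_snoc (z : ℕ → ℕ) (u : ℕ → List ℕ) (n : ℕ) :
    nf z u (n + 1) = nf z u n ++ z n :: dbl (u n) := by
  unfold nf
  rw [List.range_succ, List.flatMap_append]
  simp

theorem norm (hG : Gz β) (hI : MWZ.I1 1 (RR β)) (y : ℕ) (r : List ℕ) : ∀ (c A₀ : List ℕ),
    (∀ l ∈ c, 2 ≤ (A₀ ++ c ++ y :: r).count l) → y ∈ A₀ →
    ∃ (u₀ : List ℕ) (n : ℕ) (z : ℕ → ℕ) (u : ℕ → List ℕ),
      (∀ i < n, z i ∈ r ∧ z i ∉ A₀) ∧ (∀ i < n, ∀ j < n, z i = z j → i = j) ∧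
        ∀ A : List ℕ, A.Perm A₀ →
          RR β (A ++ (c ++ y :: r)) (A ++ (dbl u₀ ++ (nf z u n ++ y :: r)))
  | [], A₀, _, _ => ⟨[], 0, fun _ => 0, fun _ => [], fun i hi => by omega, fun i hi => by omega,
      fun A _ => RR.refl _⟩
  | d :: c, A₀, h, hy => by
    by_cases hd : d ∈ A₀ ∨ d ∉ r
    · -- the letter can be doubled
      obtain ⟨u₀, n, z, u, h1, h2, h3⟩ := norm hG hI y r c (A₀ ++ [d, d]) (fun l hl => by
        have := h l (List.mem_cons_of_mem _ hl)
        simp only [List.count_append, List.count_cons, List.count_nil] at this ⊢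
        omega) (List.mem_append_left _ hy)
      refine ⟨d :: u₀, n, z, u, fun i hi => ⟨(h1 i hi).1, fun hm =>
        (h1 i hi).2 (List.mem_append_left _ hm)⟩, h2, fun A hA => ?_⟩
      have hdouble : RR β (A ++ d :: (c ++ y :: r)) (A ++ d :: d :: (c ++ y :: r)) := by
        by_cases hdA : d ∈ A₀
        · exact dup hG (hA.mem_iff.2 hdA) _
        · have hdr : d ∉ r := by
            rcases hd with hd | hd
            · exact absurd hd hdA
            · exact hd
          have hdy : d ≠ y := fun e => hdA (e ▸ hy)
          have hc2 := h d (by simp)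
          have hdc : d ∈ c := by
            by_contra hdc
            simp only [List.count_append, List.count_cons_self,
              List.count_cons_of_ne (Ne.symm hdy), List.count_eq_zero_of_not_mem hdA,
              List.count_eq_zero_of_not_mem hdr, List.count_eq_zero_of_not_mem hdc] at hc2
            omega
          obtain ⟨c₁, c₂, hc⟩ := List.append_of_mem hdc
          have hI1 := hI A c₁ (c₂ ++ y :: r) d (fun l hl => by
            have := h l (by rw [hc]; exact List.mem_cons_of_mem _ (List.mem_append_left _ hl))
            rw [hc] at this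
            simp only [List.count_append, List.count_cons, hA.count_eq] at this ⊢
            omega)
          rw [hc]
          simpa only [List.append_assoc, List.cons_append, List.nil_append,
            List.replicate_succ, List.replicate_zero] using hI1
      refine tr (by simpa only [List.cons_append] using hdouble) ?_
      have h4 := h3 (A ++ [d, d]) (hA.append_right _)
      rw [dbl_cons]
      simpa only [List.append_assoc, List.cons_append, List.nil_append] using h4
    · rw [not_or, not_not] at hd
      obtain ⟨hdA, hdr⟩ := hd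
      obtain ⟨u₀, n, z, u, h1, h2, h3⟩ := norm hG hI y r c (A₀ ++ [d]) (fun l hl => by
        have := h l (List.mem_cons_of_mem _ hl)
        simp only [List.count_append, List.count_cons, List.count_nil] at this ⊢
        omega) (List.mem_append_left _ hy)
      refine ⟨[], n + 1, fun i => Nat.casesOn i d z, fun i => Nat.casesOn i u₀ u, ?_, ?_,
        fun A hA => ?_⟩
      · intro i hi
        cases i with
        | zero => exact ⟨hdr, hdA⟩
        | succ i => exact ⟨(h1 i (by omega)).1, fun hm =>
            (h1 i (by omega)).2 (List.mem_append_left _ hm)⟩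
      · intro i hi j hj e
        cases i with
        | zero =>
          cases j with
          | zero => rfl
          | succ j =>
            exact absurd (List.mem_append_right A₀ (by
              show z j ∈ [d]
              have e' : d = z j := e
              rw [e']
              simp)) (h1 j (by omega)).2
        | succ i =>
          cases j with
          | zero =>
            exact absurd (List.mem_append_right A₀ (by
              show z i ∈ [d]
              have e' : z i = d := e
              rw [e']
              simp)) (h1 i (by omega)).2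
          | succ j =>
            have := h2 i (by omega) j (by omega) e
            omega
      · have h4 := h3 (A ++ [d]) (hA.append_right _)
        rw [nf_cons]
        simp only [List.append_assoc, List.cons_append, List.nil_append] at h4 ⊢
        exact h4

/-! ### the tail -/

theorem tail (z : ℕ → ℕ) : ∀ (R : List ℕ) (I : Finset ℕ), (∀ i ∈ I, z i ∈ R) →
    (∀ i ∈ I, ∀ j ∈ I, z i = z j → i = j) →
    ∃ (τ : List ℕ) (S : ℕ → List ℕ) (rest : List ℕ), τ.Nodup ∧ (∀ i, i ∈ τ ↔ i ∈ I) ∧
      R = τ.flatMap (fun i => S i ++ [z i]) ++ rest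
  | [], I, h, _ => by
    have hI : I = ∅ := by
      rw [Finset.eq_empty_iff_forall_notMem]
      intro i hi
      exact absurd (h i hi) (by simp)
    exact ⟨[], fun _ => [], [], List.nodup_nil, fun i => by simp [hI], rfl⟩
  | a :: R, I, h, hinj => by
    by_cases ha : ∃ i ∈ I, z i = a
    · obtain ⟨i, hi, hia⟩ := ha
      obtain ⟨τ, S, rest, h1, h2, h3⟩ := tail z R (I.erase i) (fun j hj => by
        have hj' := Finset.mem_erase.1 hj
        have := h j hj'.2
        rcases List.mem_cons.1 this with e | e
        · exact absurd (hinj j hj'.2 i hi (e.trans hia.symm)) hj'.1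
        · exact e) (fun j hj k hk e => hinj j (Finset.mem_of_mem_erase hj) k
            (Finset.mem_of_mem_erase hk) e)
      have hiτ : i ∉ τ := by
        rw [h2]
        simp
      refine ⟨i :: τ, fun j => if j = i then [] else S j, rest, List.nodup_cons.2 ⟨hiτ, h1⟩,
        fun j => ?_, ?_⟩
      · rw [List.mem_cons, h2, Finset.mem_erase]
        constructor
        · rintro (rfl | ⟨_, h⟩)
          · exact hi
          · exact h
        · intro hj
          by_cases e : j = i
          · exact Or.inl e
          · exact Or.inr ⟨e, hj⟩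
      · have e1 : τ.flatMap (fun j => (if j = i then [] else S j) ++ [z j]) =
            τ.flatMap (fun j => S j ++ [z j]) := by
          apply List.flatMap_congr
          intro j hj
          rw [if_neg]
          rintro rfl
          exact hiτ hj
        have e2 : (fun j => if j = i then ([] : List ℕ) else S j) i = [] := if_pos rfl
        rw [List.flatMap_cons, e1, e2, hia]
        simp only [List.append_assoc, List.cons_append, List.nil_append]
        rw [← h3]
    · obtain ⟨τ, S, rest, h1, h2, h3⟩ := tail z R I (fun j hj => by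
        have := h j hj
        rcases List.mem_cons.1 this with e | e
        · exact absurd ⟨j, hj, e⟩ ha
        · exact e) hinj
      cases τ with
      | nil => exact ⟨[], S, a :: rest, h1, h2, by rw [h3]; rfl⟩
      | cons j τ =>
        have hjτ : j ∉ τ := (List.nodup_cons.1 h1).1
        refine ⟨j :: τ, fun k => if k = j then a :: S j else S k, rest, h1, h2, ?_⟩
        have e1 : τ.flatMap (fun k => (if k = j then a :: S j else S k) ++ [z k]) =
            τ.flatMap (fun k => S k ++ [z k]) := by
          apply List.flatMap_congr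
          intro k hk
          rw [if_neg]
          rintro rfl
          exact hjτ hk
        have e2 : (fun k => if k = j then a :: S j else S k) j = a :: S j := if_pos rfl
        rw [List.flatMap_cons, e1, e2, h3, List.flatMap_cons]
        simp only [List.append_assoc, List.cons_append, List.nil_append]

/-- the identity `k` with words -/
theorem kk (hG : Gz β) (X Y t : List ℕ) :
    RR β (X ++ (Y ++ (t ++ (X ++ Y)))) (Y ++ (X ++ (t ++ (X ++ Y)))) := by
  have h := hG.k.sub (fun i => if i = 0 then X else if i = 1 then Y else t)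
  simpa using h

/-- the word in the form used by `Kap` -/
theorem form (hG : Gz β) {A : List ℕ} {x y : ℕ} (hx : x ∈ A) (hy : y ∈ A) (u₀ : List ℕ)
    (z : ℕ → ℕ) (u : ℕ → List ℕ) (m : ℕ) (r : List ℕ) :
    RR β (A ++ [x] ++ (dbl u₀ ++ (nf z u (m + 1) ++ y :: r)))
      (A ++ (dbl u₀ ++ ([x] ++ (bd (fun i => [z i]) (fun i => dbl (u i)) m ++
        ([z m] ++ ([y] ++ (dbl (u m) ++ r))))))) := by
  -- move x
  have h1 := mv hG hx u₀ (nf z u (m + 1) ++ y :: r)
  refine tr (b := A ++ (dbl u₀ ++ x :: (nf z u (m + 1) ++ y :: r))) ?_ ?_
  · simpa only [List.append_assoc, List.cons_append, List.nil_append] using h1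
  rw [nf_snoc]
  -- move y
  have h2 := (mv hG (A := A ++ (dbl u₀ ++ x :: (nf z u m ++ [z m]))) (x := y)
    (List.mem_append_left _ hy) (u m) r).symm
  refine tr (b := A ++ (dbl u₀ ++ x :: (nf z u m ++ [z m])) ++ y :: (dbl (u m) ++ r)) ?_ ?_
  · simpa only [List.append_assoc, List.cons_append, List.nil_append] using h2
  have h3 : RR β (nf z u m) (bd (fun i => [z i]) (fun i => dbl (u i)) m) := by
    unfold nf bd
    apply rr_flatMap
    intro i _
    have := (RR.refl (β := β) [z i]).append (dbl_idem hG (u i))
    exact this
  have h4 := ctx h3 (A ++ (dbl u₀ ++ [x])) ([z m] ++ ([y] ++ (dbl (u m) ++ r)))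
  simpa only [List.append_assoc, List.cons_append, List.nil_append] using h4

end

/-- **CMW** -/
theorem cmw : CmwStmt := by
  intro β hG hI hK p q c r x y hMul
  obtain ⟨u₀, n, z, u, h1, h2, h3⟩ := norm hG hI y r c (p ++ x :: y :: (q ++ [x]))
    (fun l hl => by
      have := hMul l hl
      simpa only [List.append_assoc, List.cons_append, List.nil_append] using this)
    (by simp)
  have hL := h3 (p ++ x :: y :: (q ++ [x])) (List.Perm.refl _)
  have hR := h3 (p ++ y :: x :: (q ++ [x])) (List.Perm.append_left p (List.Perm.swap _ _ _))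
  cases n with
  | zero =>
    have key : ∀ a b : ℕ, x ∈ p ++ a :: b :: q → 
        RR β (p ++ a :: b :: (q ++ [x]) ++ (dbl u₀ ++ (nf z u 0 ++ y :: r)))
          (p ++ ([a] ++ ([b] ++ ((q ++ dbl u₀) ++ ([x] ++ [y])))) ++ r) := by
      intro a b hx
      have := mv hG hx u₀ (y :: r)
      simpa only [nf, List.range_zero, List.flatMap_nil, List.append_assoc, List.cons_append,
        List.nil_append] using this
    have k1 := key x y (by simp)
    have k2 := key y x (by simp)
    have k3 := ctx (kk hG [x] [y] (q ++ dbl u₀)) p r
    have hL' := tr hL k1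
    have hR' := tr hR k2
    have := tr (tr hL' (by simpa only [List.append_assoc] using k3)) hR'.symm
    simpa only [List.append_assoc, List.cons_append, List.nil_append] using this
  | succ m =>
    obtain ⟨τ, S, rest, t1, t2, t3⟩ := tail z (dbl (u m) ++ r) (Finset.range (m + 1))
      (fun i hi => List.mem_append_right _ (h1 i (Finset.mem_range.1 hi)).1)
      (fun i hi j hj e => h2 i (Finset.mem_range.1 hi) j (Finset.mem_range.1 hj) e)
    have hτ : Tau τ m := ⟨t1, fun i => by rw [t2, Finset.mem_range]; omega⟩
    have hkap := hK m τ hτ [x] [y] (q ++ dbl u₀) [] S (fun i => [z i]) (fun i => dbl (u i))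
    have f1 := form hG (A := p ++ x :: y :: q) (x := x) (y := y) (by simp) (by simp) u₀ z u m r
    have f2 := form hG (A := p ++ y :: x :: q) (x := x) (y := y) (by simp) (by simp) u₀ z u m r
    rw [t3] at f1 f2
    have k3 := ctx hkap p rest
    unfold kr at k3
    have hL' : RR β (p ++ x :: y :: (q ++ x :: (c ++ y :: r)))
        (p ++ x :: y :: q ++ [x] ++ (dbl u₀ ++ (nf z u (m + 1) ++ y :: r))) := by
      simpa only [List.append_assoc, List.cons_append, List.nil_append] using hL
    have hR' : RR β (p ++ y :: x :: (q ++ x :: (c ++ y :: r)))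
        (p ++ y :: x :: q ++ [x] ++ (dbl u₀ ++ (nf z u (m + 1) ++ y :: r))) := by
      simpa only [List.append_assoc, List.cons_append, List.nil_append] using hR
    have l1 := tr hL' f1
    have l2 := tr hR' f2
    refine tr l1 (tr ?_ l2.symm)
    simpa only [List.append_assoc, List.cons_append, List.nil_append] using k3

end Pool.Agent.MWGN.H36
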