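import Pool.Agent.MWGN.StmtsD
import Pool.Agent.Helper36_MWGN.CMW

/-!
# MWGN row FFR: FB and I1 imply the fill identity for all words
-/

namespace Pool.Agent.MWGN.H36

open Pool.Agent.Helper14_MV Pool.Agent.Helper2_MV
open Pool.Agent.MWK (pre Gw)
open Pool.Agent.MWF (Ap gaml dbl)
open Pool.Agent.MWGN

section
variable {β : FIC}

/-- a letter which occurs before, or later over multiple letters, may be doubled -/
theorem double (hG : Gz β) (hI : MWZ.I1 1 (RR β)) {A v R : List ℕ} {d : ℕ} (hd : d ∈ A ∨ d ∈ v)
    (hv : ∀ l ∈ v, 2 ≤ (A ++ d :: (v ++ R)).count l) :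
    RR β (A ++ d :: (v ++ R)) (A ++ d :: d :: (v ++ R)) := by
  rcases hd with hd | hd
  · exact dup hG hd _
  · obtain ⟨c₁, c₂, hc⟩ := List.append_of_mem hd
    have hI1 := hI A c₁ (c₂ ++ R) d (fun l hl => by
      have := hv l (by rw [hc]; exact List.mem_append_left _ hl)
      rw [hc] at this
      simpa only [List.append_assoc, List.cons_append] using this)
    rw [hc]
    simpa only [List.append_assoc, List.cons_append, List.nil_append,
      List.replicate_succ, List.replicate_zero] using hI1

/-- `norm` for all larger left contexts -/
theorem normg (hG : Gz β) (hI : MWZ.I1 1 (RR β)) (y : ℕ) (r : List ℕ) : ∀ (c A₀ : List ℕ),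
    (∀ l ∈ c, 2 ≤ (A₀ ++ (c ++ y :: r)).count l) → y ∈ A₀ →
    ∃ (u₀ : List ℕ) (n : ℕ) (z : ℕ → ℕ) (u : ℕ → List ℕ),
      (∀ i < n, z i ∈ r ∧ z i ∉ A₀) ∧ (∀ i < n, ∀ j < n, z i = z j → i = j) ∧
        ∀ A : List ℕ, (∀ l, A₀.count l ≤ A.count l) →
          RR β (A ++ (c ++ y :: r)) (A ++ (dbl u₀ ++ (nf z u n ++ y :: r)))
  | [], A₀, _, _ => ⟨[], 0, fun _ => 0, fun _ => [], fun i hi => by omega, fun i hi => by omega,
      fun A _ => RR.refl _⟩
  | d :: c, A₀, h, hy => by
    by_cases hd : d ∈ A₀ ∨ d ∉ r
    · obtain ⟨u₀, n, z, u, h1, h2, h3⟩ := normg hG hI y r c (A₀ ++ [d, d]) (fun l hl => by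
        have := h l (List.mem_cons_of_mem _ hl)
        simp only [List.count_append, List.count_cons, List.count_nil] at this ⊢
        omega) (List.mem_append_left _ hy)
      refine ⟨d :: u₀, n, z, u, fun i hi => ⟨(h1 i hi).1, fun hm =>
        (h1 i hi).2 (List.mem_append_left _ hm)⟩, h2, fun A hA => ?_⟩
      have hd2 : d ∈ A ∨ d ∈ c := by
        by_cases hdA : d ∈ A₀
        · left
          have := hA d
          have := List.count_pos_iff.2 hdA
          exact List.count_pos_iff.1 (by omega)
        · right
          have hdr : d ∉ r := by
            rcases hd with hd | hd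
            · exact absurd hd hdA
            · exact hd
          have hdy : d ≠ y := fun e => hdA (e ▸ hy)
          have hc2 := h d (by simp)
          by_contra hdc
          simp only [List.count_append, List.cons_append, List.count_cons_self,
            List.count_cons_of_ne (Ne.symm hdy), List.count_eq_zero_of_not_mem hdA,
            List.count_eq_zero_of_not_mem hdr, List.count_eq_zero_of_not_mem hdc] at hc2
          omega
      have hdouble := double hG hI (R := y :: r) hd2 (fun l hl => by
        have h5 := h l (List.mem_cons_of_mem _ hl)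
        have h6 := hA l
        simp only [List.count_append, List.cons_append, List.count_cons] at h5 ⊢
        omega)
      refine tr (by simpa only [List.cons_append] using hdouble) ?_
      have h4 := h3 (A ++ [d, d]) (fun l => by
        have := hA l
        simp only [List.count_append]
        omega)
      rw [dbl_cons]
      simpa only [List.append_assoc, List.cons_append, List.nil_append] using h4
    · rw [not_or, not_not] at hd
      obtain ⟨hdA, hdr⟩ := hd
      obtain ⟨u₀, n, z, u, h1, h2, h3⟩ := normg hG hI y r c (A₀ ++ [d]) (fun l hl => by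
        have := h l (List.mem_cons_of_mem _ hl)
        simp only [List.count_append, List.cons_append, List.count_cons, List.count_nil] at this ⊢
        omega) (List.mem_append_left _ hy)
      refine ⟨[], n + 1, fun i => Nat.casesOn i d z, fun i => Nat.casesOn i u₀ u, ?_, ?_,
        fun A hA => ?_⟩
      · intro i hi
        cases i with
        | zero => exact ⟨hdr, hdA⟩
        | succ i => exact ⟨(h1 i (by omega)).1, fun hm =>
            (h1 i (by omega)).2 (List.mem_append_left _ hm)⟩
      · intro i hi j hj e
        cases i with
        | zero =>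
          cases j with
          | zero => rfl
          | succ j =>
            exact absurd (List.mem_append_right A₀ (by
              show z j ∈ [d]
              have e' : d = z j := e
              rw [e']
              simp)) (h1 j (by omega)).2
        | succ i =>
          cases j with
          | zero =>
            exact absurd (List.mem_append_right A₀ (by
              show z i ∈ [d]
              have e' : z i = d := e
              rw [e']
              simp)) (h1 i (by omega)).2
          | succ j =>
            have := h2 i (by omega) j (by omega) e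
            omega
      · have h4 := h3 (A ++ [d]) (fun l => by
          have := hA l
          simp only [List.count_append]
          omega)
        rw [nf_cons]
        simp only [List.append_assoc, List.cons_append, List.nil_append] at h4 ⊢
        exact h4

/-- the normal form with squares of `c` behind some of the doubled words -/
def nfs (c : ℕ) (s : ℕ → Bool) (z : ℕ → ℕ) (u : ℕ → List ℕ) (n : ℕ) : List ℕ :=
  (List.range n).flatMap (fun i => z i :: (dbl (u i) ++ (if s i then [c, c] else [])))

theorem nfs_cons (c : ℕ) (s : ℕ → Bool) (z : ℕ → ℕ) (u : ℕ → List ℕ) (n : ℕ) :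
    nfs c s z u (n + 1) = z 0 :: (dbl (u 0) ++ (if s 0 then [c, c] else [])) ++
      nfs c (fun i => s (i + 1)) (fun i => z (i + 1)) (fun i => u (i + 1)) n := by
  unfold nfs
  rw [List.range_succ_eq_map, List.flatMap_cons, List.flatMap_map]

theorem nfs_snoc (c : ℕ) (s : ℕ → Bool) (z : ℕ → ℕ) (u : ℕ → List ℕ) (n : ℕ) :
    nfs c s z u (n + 1) = nfs c s z u n ++ z n :: (dbl (u n) ++ (if s n then [c, c] else [])) := by
  unfold nfs
  rw [List.range_succ, List.flatMap_append]
  simp

theorem nfs_false (c : ℕ) (z : ℕ → ℕ) (u : ℕ → List ℕ) (n : ℕ) :
    nfs c (fun _ => false) z u n = nf z u n := by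
  unfold nfs nf
  simp

/-- normal forms of a word with and without an additional letter `c` -/
theorem norm2 (hG : Gz β) (hI : MWZ.I1 1 (RR β)) (c : ℕ) (w' q : List ℕ) : ∀ (w A₀ : List ℕ),
    (∀ l ∈ w ++ w', 2 ≤ (A₀ ++ (w ++ (w' ++ c :: q))).count l) → c ∈ A₀ →
    ∃ (u₀ : List ℕ) (n : ℕ) (z : ℕ → ℕ) (u : ℕ → List ℕ) (s₀ : Bool) (s : ℕ → Bool),
      (∀ i < n, z i ∈ q ∧ z i ∉ A₀) ∧ (∀ i < n, ∀ j < n, z i = z j → i = j) ∧
        ∀ A : List ℕ, (∀ l, A₀.count l ≤ A.count l) →
          RR β (A ++ (w ++ (w' ++ c :: q))) (A ++ (dbl u₀ ++ (nf z u n ++ c :: q))) ∧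
          RR β (A ++ (w ++ c :: (w' ++ c :: q))) (A ++ (dbl u₀ ++ ((if s₀ then [c, c] else []) ++
            (nfs c s z u n ++ c :: q))))
  | [], A₀, h, hc => by
    obtain ⟨u₀, n, z, u, h1, h2, h3⟩ := normg hG hI c q w' A₀ h hc
    refine ⟨u₀, n, z, u, true, fun _ => false, h1, h2, fun A hA => ⟨h3 A hA, ?_⟩⟩
    have hcA : c ∈ A := by
      have := hA c
      have := List.count_pos_iff.2 hc
      exact List.count_pos_iff.1 (by omega)
    have h4 := h3 (A ++ [c]) (fun l => by
      have := hA l
      simp only [List.count_append]
      omega)
    rw [nfs_false, if_pos rfl]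
    have h5 := dup hG hcA (dbl u₀ ++ (nf z u n ++ c :: q))
    have h6 := ctx (sq_dbl hG c u₀) A (nf z u n ++ c :: q)
    refine tr (b := A ++ c :: (dbl u₀ ++ (nf z u n ++ c :: q))) ?_ (tr h5 ?_)
    · simpa only [List.append_assoc, List.cons_append, List.nil_append] using h4
    · simpa only [List.append_assoc, List.cons_append, List.nil_append] using h6
  | d :: w, A₀, h, hc => by
    by_cases hd : d ∈ A₀ ∨ d ∉ q
    · obtain ⟨u₀, n, z, u, s₀, s, h1, h2, h3⟩ := norm2 hG hI c w' q w (A₀ ++ [d, d])
        (fun l hl => by
          have := h l (List.mem_cons_of_mem _ hl)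
          simp only [List.count_append, List.cons_append, List.count_cons, List.count_nil]
            at this ⊢
          omega) (List.mem_append_left _ hc)
      refine ⟨d :: u₀, n, z, u, s₀, s, fun i hi => ⟨(h1 i hi).1, fun hm =>
        (h1 i hi).2 (List.mem_append_left _ hm)⟩, h2, fun A hA => ?_⟩
      have hcA : 0 < A.count c := by
        have := hA c
        have := List.count_pos_iff.2 hc
        omega
      have hd2 : d ∈ A ∨ d ∈ w ++ w' := by
        by_cases hdA : d ∈ A₀
        · left
          have := hA d
          have := List.count_pos_iff.2 hdA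
          exact List.count_pos_iff.1 (by omega)
        · right
          have hdr : d ∉ q := by
            rcases hd with hd | hd
            · exact absurd hd hdA
            · exact hd
          have hdy : d ≠ c := fun e => hdA (e ▸ hc)
          have hc2 := h d (by simp)
          by_contra hdc
          rw [List.mem_append, not_or] at hdc
          simp only [List.count_append, List.cons_append, List.count_cons_self,
            List.count_cons_of_ne (Ne.symm hdy), List.count_eq_zero_of_not_mem hdA,
            List.count_eq_zero_of_not_mem hdr, List.count_eq_zero_of_not_mem hdc.1,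
            List.count_eq_zero_of_not_mem hdc.2] at hc2
          omega
      have hd3 : d ∈ A ∨ d ∈ w ++ c :: w' := by
        rcases hd2 with h' | h'
        · exact Or.inl h'
        · right
          rcases List.mem_append.1 h' with h'' | h''
          · exact List.mem_append_left _ h''
          · exact List.mem_append_right _ (List.mem_cons_of_mem _ h'')
      have hdouble1 := double hG hI (R := c :: q) hd2 (fun l hl => by
        have h5 := h l (List.mem_cons_of_mem _ hl)
        have h6 := hA l
        simp only [List.count_append, List.cons_append, List.count_cons] at h5 ⊢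
        omega)
      have hdouble2 := double hG hI (R := c :: q) hd3 (fun l hl => by
        rcases List.mem_append.1 hl with h' | h'
        · have h5 := h l (List.mem_cons_of_mem _ (List.mem_append_left _ h'))
          have h6 := hA l
          simp only [List.count_append, List.cons_append, List.count_cons] at h5 ⊢
          omega
        · rcases List.mem_cons.1 h' with h' | h'
          · rw [h']
            simp only [List.count_append, List.count_cons, beq_self_eq_true, if_true]
            omega
          · have h5 := h l (List.mem_cons_of_mem _ (List.mem_append_right _ h'))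
            have h6 := hA l
            simp only [List.count_append, List.cons_append, List.count_cons] at h5 ⊢
            omega)
      obtain ⟨h4, h5⟩ := h3 (A ++ [d, d]) (fun l => by
        have := hA l
        simp only [List.count_append]
        omega)
      rw [dbl_cons]
      constructor
      · refine tr (b := A ++ d :: d :: (w ++ w' ++ c :: q)) ?_ ?_
        · simpa only [List.append_assoc, List.cons_append, List.nil_append] using hdouble1
        · simpa only [List.append_assoc, List.cons_append, List.nil_append] using h4
      · refine tr (b := A ++ d :: d :: (w ++ c :: w' ++ c :: q)) ?_ ?_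
        · simpa only [List.append_assoc, List.cons_append, List.nil_append] using hdouble2
        · simpa only [List.append_assoc, List.cons_append, List.nil_append] using h5
    · rw [not_or, not_not] at hd
      obtain ⟨hdA, hdr⟩ := hd
      obtain ⟨u₀, n, z, u, s₀, s, h1, h2, h3⟩ := norm2 hG hI c w' q w (A₀ ++ [d]) (fun l hl => by
        have := h l (List.mem_cons_of_mem _ hl)
        simp only [List.count_append, List.cons_append, List.count_cons, List.count_nil] at this ⊢
        omega) (List.mem_append_left _ hc)
      refine ⟨[], n + 1, fun i => Nat.casesOn i d z, fun i => Nat.casesOn i u₀ u, false,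
        fun i => Nat.casesOn i s₀ s, ?_, ?_, fun A hA => ?_⟩
      · intro i hi
        cases i with
        | zero => exact ⟨hdr, hdA⟩
        | succ i => exact ⟨(h1 i (by omega)).1, fun hm =>
            (h1 i (by omega)).2 (List.mem_append_left _ hm)⟩
      · intro i hi j hj e
        cases i with
        | zero =>
          cases j with
          | zero => rfl
          | succ j =>
            exact absurd (List.mem_append_right A₀ (by
              show z j ∈ [d]
              have e' : d = z j := e
              rw [e']
              simp)) (h1 j (by omega)).2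
        | succ i =>
          cases j with
          | zero =>
            exact absurd (List.mem_append_right A₀ (by
              show z i ∈ [d]
              have e' : z i = d := e
              rw [e']
              simp)) (h1 i (by omega)).2
          | succ j =>
            have := h2 i (by omega) j (by omega) e
            omega
      · obtain ⟨h4, h5⟩ := h3 (A ++ [d]) (fun l => by
          have := hA l
          simp only [List.count_append]
          omega)
        rw [nf_cons, nfs_cons]
        constructor
        · simp only [List.append_assoc, List.cons_append, List.nil_append] at h4 ⊢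
          exact h4
        · simp only [List.append_assoc, List.cons_append, List.nil_append] at h5 ⊢
          exact h5

/-- the normal form as `bs` -/
theorem nfs_bs (hG : Gz β) (c : ℕ) (s : ℕ → Bool) (z : ℕ → ℕ) (u : ℕ → List ℕ) (m : ℕ) :
    RR β (nfs c s z u m) (bs (fun i => [z i]) (fun i => dbl (u i)) [c] s m) := by
  unfold nfs bs
  apply rr_flatMap
  intro i _
  have h1 := (RR.refl (β := β) [z i]).append ((dbl_idem hG (u i)).append
    (RR.refl (β := β) (if s i then [c] ++ [c] else [])))
  simpa only [List.append_assoc, List.cons_append, List.nil_append] using h1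

/-- squares of a letter which occurs before are absorbed by the next one -/
theorem absorb (hG : Gz β) {A : List ℕ} {c : ℕ} (hc : c ∈ A) (b : Bool) (R : List ℕ) :
    RR β (A ++ ((if b then [c, c] else []) ++ c :: R)) (A ++ c :: R) := by
  cases b with
  | false => exact RR.refl _
  | true =>
    rw [if_pos rfl]
    have h1 := dup hG hc (c :: R)
    have h2 := dup hG hc R
    exact tr h1.symm h2.symm

/-- the words in the form `ws` -/
theorem toWs (hG : Gz β) (p q : List ℕ) (c : ℕ) (u₀ : List ℕ) (m : ℕ) (z : ℕ → ℕ)
    (u : ℕ → List ℕ) (s₀ : Bool) (s : ℕ → Bool) (τ : List ℕ) (S : ℕ → List ℕ) (rest : List ℕ)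
    (ht : dbl (u m) ++ q = τ.flatMap (fun i => S i ++ [z i]) ++ rest) :
    RR β (p ++ [c, c] ++ (dbl u₀ ++ ((if s₀ then [c, c] else []) ++
      (nfs c s z u (m + 1) ++ c :: q))))
      (p ++ dbl u₀ ++ (ws [c] [] S (fun i => [z i]) (fun i => dbl (u i)) s τ m ++ rest)) := by
  -- the first square
  have k1 : RR β ([c, c] ++ (dbl u₀ ++ (if s₀ then [c, c] else []))) (dbl u₀ ++ [c, c]) := by
    have h0 : RR β ([c, c] ++ dbl u₀) (dbl u₀ ++ [c, c]) := sq_dbl hG c u₀
    cases s₀ with
    | false =>
      rw [if_neg (by decide), List.append_nil]
      exact h0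
    | true =>
      rw [if_pos rfl, ← List.append_assoc]
      have h1 := h0.append (RR.refl (β := β) [c, c])
      have h2 := (RR.refl (β := β) (dbl u₀)).append (sq_four hG c).symm
      refine tr h1 ?_
      simpa only [List.append_assoc, List.cons_append, List.nil_append] using h2
  have s1 := ctx k1 p (nfs c s z u (m + 1) ++ c :: q)
  refine tr (b := p ++ (dbl u₀ ++ [c, c] ++ (nfs c s z u (m + 1) ++ c :: q))) ?_ ?_
  · simpa only [List.append_assoc] using s1
  rw [nfs_snoc]
  -- the last square and the last doubled word
  have s2 := absorb hG (A := p ++ dbl u₀ ++ [c, c] ++ nfs c s z u m ++ z m :: dbl (u m)) (c := c)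
    (by simp) (s m) q
  have s3 := mv hG (A := p ++ dbl u₀ ++ [c, c] ++ nfs c s z u m ++ [z m]) (x := c)
    (by simp) (u m) q
  refine tr (b := p ++ dbl u₀ ++ [c, c] ++ nfs c s z u m ++ z m :: dbl (u m) ++ c :: q) ?_ ?_
  · simpa only [List.append_assoc, List.cons_append, List.nil_append] using s2
  refine tr (b := p ++ dbl u₀ ++ [c, c] ++ nfs c s z u m ++ [z m] ++ c :: (dbl (u m) ++ q)) ?_ ?_
  · have := s3.symm
    simpa only [List.append_assoc, List.cons_append, List.nil_append] using this
  rw [ht]
  have s4 := ctx (nfs_bs hG c s z u m) (p ++ dbl u₀ ++ [c, c]) ([z m] ++ c ::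
    (τ.flatMap (fun i => S i ++ [z i]) ++ rest))
  unfold ws
  simpa only [List.append_assoc, List.cons_append, List.nil_append] using s4

end

/-- **FFR** -/
theorem ffr (hFSP : FspStmt) : FfrStmt := by
  intro β hG hI hFB p w w' q c hmul
  obtain ⟨u₀, n, z, u, s₀, s, h1, h2, h3⟩ := norm2 hG hI c w' q w (p ++ [c, c])
    (fun l hl => by
      have := hmul l hl
      simpa only [List.append_assoc, List.cons_append, List.nil_append] using this) (by simp)
  obtain ⟨hL, hR⟩ := h3 (p ++ [c, c]) (fun l => le_rfl)
  have hL' : RR β (p ++ c :: c :: (w ++ (w' ++ c :: q)))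
      (p ++ [c, c] ++ (dbl u₀ ++ (nf z u n ++ c :: q))) := by
    simpa only [List.append_assoc, List.cons_append, List.nil_append] using hL
  have hR' : RR β (p ++ c :: c :: (w ++ c :: (w' ++ c :: q)))
      (p ++ [c, c] ++ (dbl u₀ ++ ((if s₀ then [c, c] else []) ++ (nfs c s z u n ++ c :: q)))) := by
    simpa only [List.append_assoc, List.cons_append, List.nil_append] using hR
  refine tr hL' (tr ?_ hR'.symm)
  cases n with
  | zero =>
    have e1 : nf z u 0 = [] := rfl
    have e2 : nfs c s z u 0 = [] := rfl
    rw [e1, e2, List.nil_append]
    have := absorb hG (A := p ++ [c, c] ++ dbl u₀) (c := c) (by simp) s₀ q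
    have := this.symm
    simpa only [List.append_assoc] using this
  | succ m =>
    obtain ⟨τ, S, rest, t1, t2, t3⟩ := tail z (dbl (u m) ++ q) (Finset.range (m + 1))
      (fun i hi => List.mem_append_right _ (h1 i (Finset.mem_range.1 hi)).1)
      (fun i hi j hj e => h2 i (Finset.mem_range.1 hi) j (Finset.mem_range.1 hj) e)
    have hτ : Tau τ m := ⟨t1, fun i => by rw [t2, Finset.mem_range]; omega⟩
    have f1 := toWs hG p q c u₀ m z u false (fun _ => false) τ S rest t3
    have f2 := toWs hG p q c u₀ m z u s₀ s τ S rest t3
    rw [nfs_false, if_neg (by decide), List.nil_append] at f1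
    refine tr f1 (tr ?_ f2.symm)
    by_cases hs : ∃ i < m, s i = true
    · have g1 := hFB m τ hτ [c] [] S (fun i => [z i]) (fun i => dbl (u i))
      have g2 := hFSP β hG m (fun n _ τ hτ => hFB n τ hτ) τ hτ s hs [c] [] S (fun i => [z i])
        (fun i => dbl (u i))
      exact ctx (tr g1 g2.symm) _ _
    · have e : bs (fun i => [z i]) (fun i => dbl (u i)) [c] (fun _ => false) m =
          bs (fun i => [z i]) (fun i => dbl (u i)) [c] s m := by
        unfold bs
        apply List.flatMap_congr
        intro i hi
        have : s i = false := by
          by_contra hne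
          exact hs ⟨i, List.mem_range.1 hi, by simpa using hne⟩
        rw [this]
      unfold ws
      rw [e]
      exact RR.refl _

end Pool.Agent.MWGN.H36
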