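import Pool.Agent.MWGN.StmtsC
import Pool.Agent.Helper36_MWGN.CMW

/-!
# MWGN row NOG: normalisation of a run after doubling of one letter
-/

namespace Pool.Agent.MWGN.H36

open Pool.Agent.Helper14_MV Pool.Agent.Helper2_MV
open Pool.Agent.MWK (pre Gw)
open Pool.Agent.MWF (Ap gaml dbl)
open Pool.Agent.MWGN

section
variable {β : FIC}

/-- an identity in a context, right associated -/
theorem ctl {u v : List ℕ} (A : List ℕ) (h : RR β u v) : RR β (A ++ u) (A ++ v) :=
  (RR.refl A).append h

/-- powers -/
theorem pow2 (hG : Gz β) (c : ℕ) : ∀ k : ℕ, RR β (List.replicate (k + 2) c) [c, c]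
  | 0 => RR.refl _
  | k + 1 => by
    have h := hG.gw.ap.sq.sub (fun _ => [c])
    have h1 : RR β [c, c] [c, c, c] := by simpa using h
    have h2 := (RR.refl (β := β) [c]).append (pow2 hG c k)
    exact tr h2 h1.symm

/-- a power of a letter which occurs before -/
theorem powd (hG : Gz β) {A : List ℕ} {x : ℕ} (hx : x ∈ A) (R : List ℕ) : ∀ k : ℕ,
    RR β (A ++ (List.replicate (k + 1) x ++ R)) (A ++ x :: R)
  | 0 => RR.refl _
  | k + 1 => by
    have h1 := powd hG hx R k
    have h2 := dup hG hx (List.replicate k x ++ R)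
    exact tr h2.symm h1

/-- squares of a letter: four to two -/
theorem four2 (hG : Gz β) (x : ℕ) : RR β [x, x, x, x] [x, x] := (sq_four hG x).symm

/-- normal form of a word in `x`, `C` -/
def nxc (x C : ℕ) (V : List ℕ) : List ℕ :=
  (if C ∈ V then [C, C] else []) ++ (if x ∈ V then [x, x] else [])

/-- words in letters which occur before -/
theorem lemb (hG : Gz β) {x C : ℕ} (hxC : x ≠ C) : ∀ (V A R : List ℕ), x ∈ A → C ∈ A →
    (∀ c ∈ V, c = x ∨ c = C) → RR β (A ++ (V ++ R)) (A ++ (nxc x C V ++ R))
  | [], A, R, _, _, _ => RR.refl _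
  | d :: V, A, R, hx, hC, h => by
    have h1 := lemb hG hxC V (A ++ [d]) R (List.mem_append_left _ hx)
      (List.mem_append_left _ hC) (fun c hc => h c (List.mem_cons_of_mem _ hc))
    have hdA : d ∈ A := by
      rcases h d (by simp) with e | e
      · rw [e]; exact hx
      · rw [e]; exact hC
    have h2 := dup hG hdA (nxc x C V ++ R)
    have h12 : RR β (A ++ (d :: V ++ R)) (A ++ ([d, d] ++ (nxc x C V ++ R))) := by
      have h1' : RR β (A ++ d :: (V ++ R)) (A ++ d :: (nxc x C V ++ R)) := by
        simpa only [List.append_assoc, List.cons_append, List.nil_append] using h1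
      exact tr h1' h2
    refine tr h12 (ctl A ?_)
    rw [← List.append_assoc]
    refine RR.append ?_ (RR.refl R)
    rcases h d (by simp) with rfl | rfl
    · -- d = x
      have hCV : C ∈ d :: V ↔ C ∈ V := by simp [Ne.symm hxC]
      unfold nxc
      by_cases hc : C ∈ V
      · rw [if_pos hc, if_pos (hCV.2 hc), if_pos (show d ∈ d :: V by simp)]
        by_cases hd : d ∈ V
        · rw [if_pos hd]
          have k1 := (sq_comm hG d C).append (RR.refl (β := β) [d, d])
          have k2 := ctl [C, C] (four2 hG d)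
          exact tr k1 k2
        · rw [if_neg hd]
          exact sq_comm hG d C
      · rw [if_neg hc, if_neg (fun e => hc (hCV.1 e)), if_pos (show d ∈ d :: V by simp)]
        by_cases hd : d ∈ V
        · rw [if_pos hd]
          exact four2 hG d
        · rw [if_neg hd]
          exact RR.refl _
    · -- d = C
      have hxV : x ∈ d :: V ↔ x ∈ V := by simp [hxC]
      unfold nxc
      have e1 : (if x ∈ d :: V then [x, x] else []) = (if x ∈ V then [x, x] else []) :=
        if_congr hxV rfl rfl
      rw [e1, if_pos (show d ∈ d :: V by simp), ← List.append_assoc]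
      refine RR.append ?_ (RR.refl _)
      by_cases hd : d ∈ V
      · rw [if_pos hd]
        exact four2 hG d
      · rw [if_neg hd]
        exact RR.refl _

/-- the substitution -/
def dl (x : ℕ) : ℕ → List ℕ := fun c => if c = x then [x, x] else [c]

theorem dl_self (x : ℕ) : dl x x = [x, x] := if_pos rfl

theorem dl_ne {x c : ℕ} (h : c ≠ x) : dl x c = [c] := if_neg h

theorem mem_dl {x c : ℕ} (U : List ℕ) : c ∈ U.flatMap (dl x) ↔ c ∈ U := by
  rw [List.mem_flatMap]
  constructor
  · rintro ⟨a, ha, hc⟩
    unfold dl at hc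
    split_ifs at hc with h
    · have : c = x := by simpa using hc
      rw [this, ← h]
      exact ha
    · have : c = a := by simpa using hc
      rw [this]
      exact ha
  · intro h
    refine ⟨c, h, ?_⟩
    unfold dl
    split_ifs with h'
    · simp [h']
    · simp

/-- one gap -/
theorem lema (hG : Gz β) {x C : ℕ} (hxC : x ≠ C) : ∀ (U A R : List ℕ), x ∈ A →
    (∀ c ∈ U, c = x ∨ c = C) → 2 ≤ U.count C →
      RR β (A ++ (U.flatMap (dl x) ++ R))
        (A ++ (([C, C] ++ (if x ∈ U then [x, x] else [])) ++ R))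
  | [], A, R, _, _, h2 => by simp at h2
  | d :: U, A, R, hx, h, h2 => by
    rcases h d (by simp) with rfl | rfl
    · have h3 : 2 ≤ U.count C := by
        rwa [List.count_cons_of_ne hxC] at h2
      have h1 := lema hG hxC U (A ++ [d, d]) R (List.mem_append_left _ hx)
        (fun c hc => h c (List.mem_cons_of_mem _ hc)) h3
      rw [List.flatMap_cons, dl_self, if_pos (show d ∈ d :: U by simp)]
      refine tr (b := A ++ ([d, d] ++ (([C, C] ++ (if d ∈ U then [d, d] else [])) ++ R))) ?_ ?_
      · simpa only [List.append_assoc] using h1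
      · refine ctl A ?_
        rw [← List.append_assoc]
        refine RR.append ?_ (RR.refl R)
        by_cases hd : d ∈ U
        · rw [if_pos hd]
          have k1 := (sq_comm hG d C).append (RR.refl (β := β) [d, d])
          have k2 := ctl [C, C] (four2 hG d)
          exact tr k1 k2
        · rw [if_neg hd]
          exact sq_comm hG d C
    · have hCU : d ∈ U := by
        rw [List.count_cons_self] at h2
        exact List.count_pos_iff.1 (by omega)
      have h1 := lemb hG hxC (U.flatMap (dl x)) (A ++ [d]) R (List.mem_append_left _ hx)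
        (by simp) (fun c hc => h c (List.mem_cons_of_mem _ ((mem_dl U).1 hc)))
      have hxU : (if x ∈ d :: U then [x, x] else []) = (if x ∈ U then [x, x] else []) :=
        if_congr (by simp [hxC]) rfl rfl
      have e2 : nxc x d (U.flatMap (dl x)) = [d, d] ++ (if x ∈ U then [x, x] else []) := by
        unfold nxc
        rw [if_pos ((mem_dl U).2 hCU)]
        have : (if x ∈ U.flatMap (dl x) then [x, x] else []) = (if x ∈ U then [x, x] else []) :=
          if_congr (mem_dl U) rfl rfl
        rw [this]
      rw [e2] at h1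
      rw [List.flatMap_cons, dl_ne (Ne.symm hxC), hxU]
      have h3 := (dup hG (A := A ++ [d]) (x := d) (by simp)
        ((if x ∈ U then [x, x] else []) ++ R)).symm
      refine tr (b := A ++ [d] ++ (([d, d] ++ (if x ∈ U then [x, x] else [])) ++ R)) ?_ ?_
      · simpa only [List.append_assoc] using h1
      · simpa only [List.append_assoc, List.cons_append, List.nil_append] using h3

/-- all gaps -/
theorem gaps (hG : Gz β) (x : ℕ) (L C : ℕ → ℕ) (U : ℕ → List ℕ) : ∀ (r : ℕ) (A R : List ℕ),
    x ∈ A → (∀ s < r, L s ≠ x) → (∀ s < r, x ≠ C s) →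
    (∀ s < r, (∀ c ∈ U s, c = x ∨ c = C s) ∧ 2 ≤ (U s).count (C s)) →
      RR β (A ++ (((List.range r).flatMap (fun s => L s :: U s)).flatMap (dl x) ++ R))
        (A ++ (bs (sg L) (sg C) [x] (fun s => decide (x ∈ U s)) r ++ R))
  | 0, A, R, _, _, _, _ => RR.refl _
  | r + 1, A, R, hx, hL, hC, hU => by
    have e1 : ((List.range (r + 1)).flatMap (fun s => L s :: U s)).flatMap (dl x) =
        ((List.range r).flatMap (fun s => L s :: U s)).flatMap (dl x) ++
          ([L r] ++ (U r).flatMap (dl x)) := by
      rw [List.range_succ, List.flatMap_append, List.flatMap_append, List.flatMap_cons,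
        List.flatMap_nil, List.append_nil, List.flatMap_cons, dl_ne (hL r (by omega))]
    have e2 : bs (sg L) (sg C) [x] (fun s => decide (x ∈ U s)) (r + 1) =
        bs (sg L) (sg C) [x] (fun s => decide (x ∈ U s)) r ++
          ([L r] ++ ([C r, C r] ++ (if x ∈ U r then [x, x] else []))) := by
      unfold bs sg
      rw [List.range_succ, List.flatMap_append, List.flatMap_cons, List.flatMap_nil,
        List.append_nil]
      by_cases hxU : x ∈ U r
      · simp [hxU]
      · simp [hxU]
    rw [e1, e2]
    have h1 := lema hG (hC r (by omega)) (U r)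
      (A ++ (((List.range r).flatMap (fun s => L s :: U s)).flatMap (dl x) ++ [L r])) R
      (List.mem_append_left _ hx) (hU r (by omega)).1 (hU r (by omega)).2
    have h2 := gaps hG x L C U r A ([L r] ++ (([C r, C r] ++ (if x ∈ U r then [x, x] else [])) ++ R))
      hx (fun s hs => hL s (by omega)) (fun s hs => hC s (by omega)) (fun s hs => hU s (by omega))
    refine tr (b := A ++ (((List.range r).flatMap (fun s => L s :: U s)).flatMap (dl x) ++
      ([L r] ++ (([C r, C r] ++ (if x ∈ U r then [x, x] else [])) ++ R)))) ?_ ?_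
    · simpa only [List.append_assoc] using h1
    · simpa only [List.append_assoc] using h2

/-- the tails -/
theorem tails (hG : Gz β) (S L : ℕ → ℕ) (f : ℕ → ℕ) : ∀ (τ A : List ℕ), (∀ s ∈ τ, L s ∈ A) →
    (∀ s ∈ τ, 1 ≤ f s) →
      RR β (A ++ τ.flatMap (fun s => S s :: List.replicate (f s) (L s)))
        (A ++ τ.flatMap (fun s => sg S s ++ sg L s))
  | [], A, _, _ => RR.refl _
  | s :: τ, A, hA, hf => by
    obtain ⟨k, hk⟩ : ∃ k, f s = k + 1 := ⟨f s - 1, by have := hf s (by simp); omega⟩
    rw [List.flatMap_cons, List.flatMap_cons, hk]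
    have h1 := powd hG (A := A ++ [S s]) (x := L s) (List.mem_append_left _ (hA s (by simp)))
      (τ.flatMap (fun s => S s :: List.replicate (f s) (L s))) k
    have h2 := tails hG S L f τ (A ++ [S s, L s])
      (fun t ht => List.mem_append_left _ (hA t (List.mem_cons_of_mem _ ht)))
      (fun t ht => hf t (List.mem_cons_of_mem _ ht))
    refine tr (b := A ++ [S s, L s] ++ τ.flatMap (fun s => S s :: List.replicate (f s) (L s)))
      ?_ ?_
    · simpa only [List.append_assoc, List.cons_append, List.nil_append] using h1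
    · simpa only [sg, List.append_assoc, List.cons_append, List.nil_append] using h2

theorem dl_rep (x : ℕ) (k : ℕ) : (List.replicate k x).flatMap (dl x) = List.replicate (2 * k) x := by
  induction k with
  | zero => rfl
  | succ k ih =>
    rw [List.replicate_succ, List.flatMap_cons, ih, dl_self]
    rfl

theorem dl_id {x : ℕ} : ∀ {w : List ℕ}, x ∉ w → w.flatMap (dl x) = w
  | [], _ => rfl
  | a :: w, h => by
    rw [List.flatMap_cons, dl_ne (fun e => h (by simp [e])),
      dl_id (fun e => h (List.mem_cons_of_mem _ e))]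
    rfl

theorem mem_bs {L C : ℕ → ℕ} {x : ℕ} {s : ℕ → Bool} {r i : ℕ} (h : i < r) :
    L i ∈ bs (sg L) (sg C) [x] s r := by
  unfold bs
  rw [List.mem_flatMap]
  exact ⟨i, List.mem_range.2 h, by simp [sg]⟩

end

/-- **NOG** -/
theorem nog : NogStmt := by
  intro β hG ν τ r hN hτ i j U f hi hj hU hf
  -- names
  have hN' := hN
  unfold nr at hN'
  rw [List.nodup_cons] at hN'
  obtain ⟨hxn, hN1⟩ := hN'
  have hxb : ν.b ≠ ν.x := fun e => hxn (by simp [e])
  have hxS : ∀ s ≤ r, ν.S s ≠ ν.x := fun s hs e => hxn (by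
    rw [← e]
    refine List.mem_cons_of_mem _ (List.mem_append_left _ ?_)
    exact List.mem_map.2 ⟨s, List.mem_range.2 (by omega), rfl⟩)
  have hxL : ∀ s ≤ r, ν.L s ≠ ν.x := fun s hs e => hxn (by
    rw [← e]
    refine List.mem_cons_of_mem _ (List.mem_append_right _ (List.mem_append_left _ ?_))
    exact List.mem_map.2 ⟨s, List.mem_range.2 (by omega), rfl⟩)
  have hxC : ∀ s < r, ν.x ≠ ν.C s := fun s hs e => hxn (by
    rw [e]
    refine List.mem_cons_of_mem _ (List.mem_append_right _ (List.mem_append_right _ ?_))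
    exact List.mem_map.2 ⟨s, List.mem_range.2 hs, rfl⟩)
  obtain ⟨i, rfl⟩ : ∃ k, i = k + 1 := ⟨i - 1, by omega⟩
  obtain ⟨j, rfl⟩ : ∃ k, j = k + 1 := ⟨j - 1, by omega⟩
  set T := τ.flatMap (fun s => ν.S s :: List.replicate (f s) (ν.L s)) with hT
  have hxT : ν.x ∉ T := by
    rw [hT, List.mem_flatMap]
    rintro ⟨s, hs, hm⟩
    have hs' := (hτ.2 s).1 hs
    rcases List.mem_cons.1 hm with e | e
    · exact hxS s hs' e.symm
    · exact hxL s hs' (List.eq_of_mem_replicate e).symm
  set G := (List.range r).flatMap (fun s => ν.L s :: U s) with hGdef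
  have e1 : (List.replicate (i + 1) ν.x ++ (G ++ ν.L r :: (List.replicate (j + 1) ν.x ++
      ν.b :: T))).flatMap (fun c => if c = ν.x then [ν.x, ν.x] else [c]) =
      List.replicate (2 * (i + 1)) ν.x ++ (G.flatMap (dl ν.x) ++ ([ν.L r] ++
        (List.replicate (2 * (j + 1)) ν.x ++ ([ν.b] ++ T)))) := by
    show (List.replicate (i + 1) ν.x ++ (G ++ ν.L r :: (List.replicate (j + 1) ν.x ++
      ν.b :: T))).flatMap (dl ν.x) = _
    rw [List.flatMap_append, List.flatMap_append, List.flatMap_cons, List.flatMap_append,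
      List.flatMap_cons, dl_rep, dl_rep, dl_ne (hxL r le_rfl), dl_ne hxb, dl_id hxT]
  rw [e1]
  have s1 : RR β (List.replicate (2 * (i + 1)) ν.x) [ν.x, ν.x] := by
    have : 2 * (i + 1) = 2 * i + 2 := by ring
    rw [this]
    exact pow2 hG ν.x (2 * i)
  refine tr (s1.append (RR.refl _)) ?_
  have s2 := gaps hG ν.x ν.L ν.C U r [ν.x, ν.x] ([ν.L r] ++
    (List.replicate (2 * (j + 1)) ν.x ++ ([ν.b] ++ T))) (by simp)
    (fun s hs => hxL s (by omega)) hxC hU
  refine tr s2 ?_
  set B := bs (sg ν.L) (sg ν.C) [ν.x] (fun s => decide (ν.x ∈ U s)) r with hB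
  have s3 := powd hG (A := [ν.x, ν.x] ++ (B ++ [ν.L r])) (x := ν.x) (by simp) ([ν.b] ++ T)
    (2 * j + 1)
  have e3 : 2 * (j + 1) = 2 * j + 1 + 1 := by ring
  rw [e3]
  refine tr (b := [ν.x, ν.x] ++ (B ++ [ν.L r]) ++ ν.x :: ([ν.b] ++ T)) ?_ ?_
  · simpa only [List.append_assoc] using s3
  have s4 := tails hG ν.S ν.L f τ ([ν.x, ν.x] ++ (B ++ [ν.L r]) ++ [ν.x, ν.b]) (fun s hs => by
    have hs' := (hτ.2 s).1 hs
    rcases Nat.lt_or_ge s r with h | h
    · exact List.mem_append_left _ (List.mem_append_right _ (List.mem_append_left _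
        (by rw [hB]; exact mem_bs h)))
    · have : s = r := by omega
      subst this
      simp) (fun s hs => hf s ((hτ.2 s).1 hs))
  unfold ws
  simp only [List.append_assoc, List.cons_append, List.nil_append] at s4 ⊢
  exact s4

end Pool.Agent.MWGN.H36
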